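import Pool.Agent.DiophGraph.Core

set_option autoImplicit false

namespace Pool.Agent.Results.MP_85da37_lc.Dismantlable

open Pool.Agent.DiophGraph

/-- Every finite graph that dismantles to the empty set (for instance every 2-degenerate graph) or
to an induced triangular prism is Diophantine. -/
theorem result (V : Type) [Finite V] (G : SimpleGraph V) (A : Set V) (h : DismantlesTo G A)
    (hA : A = ∅ ∨ Nonempty (G.induce A ≃g prism)) : Diophantine G := by
  refine (peelable G A ?_ h).dioph
  rcases hA with rfl | ⟨⟨e⟩⟩
  · exact strong_empty G
  · exact strong_prism.comap e.toEmbedding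

end Pool.Agent.Results.MP_85da37_lc.Dismantlable
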