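import Pool.Agent.DiophGraph.Core

set_option autoImplicit false

namespace Pool.Agent.Results.MP_85da37_lc.SimpleReduction

open Pool.Agent.DiophGraph

/-- If a finite graph `G` simply dismantles to `A`, then `G` is Diophantine iff `G[A]` is. -/
theorem result (V : Type) [Finite V] (G : SimpleGraph V) (A : Set V)
    (h : SimplyDismantlesTo G A) : Diophantine G ↔ Diophantine (G.induce A) :=
  ⟨fun hG => hG.comap (SimpleGraph.Embedding.induce A), fun hA => simplyPeelable G A hA h⟩

end Pool.Agent.Results.MP_85da37_lc.SimpleReduction
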